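import Pool.Agent.H8.PI.Main

/-!
# Groups of exponent `p` in PI algebras: the class is at most linear in the number of generators
-/

set_option autoImplicit false

namespace Pool.Agent.Results.MP_e1f7d3_al.PILinearClass

universe u v

/-- The group commutators of weight `w` in the elements `g i`: the `g i` have weight `1`, and if
`a`, `b` are commutators of the weights `w₁`, `w₂`, then `a b a⁻¹ b⁻¹` is one of weight
`w₁ + w₂`. -/
inductive CommutatorOfWeight {G : Type u} [Group G] {m : ℕ} (g : Fin m → G) : ℕ → G → Prop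
  | gen (i : Fin m) : CommutatorOfWeight g 1 (g i)
  | comm {w₁ w₂ : ℕ} {a b : G} (ha : CommutatorOfWeight g w₁ a) (hb : CommutatorOfWeight g w₂ b) :
      CommutatorOfWeight g (w₁ + w₂) (a * b * a⁻¹ * b⁻¹)

/-- The algebra `A` satisfies the multilinear identity
`∑ c(σ) x_{σ(1)} ⋯ x_{σ(d)} = 0` of degree `d`, where `c ≠ 0`. -/
def SatisfiesIdentity (p : ℕ) (A : Type u) [Ring A] [Algebra (ZMod p) A] (d : ℕ)
    (c : Equiv.Perm (Fin d) → ZMod p) : Prop :=
  c ≠ 0 ∧ ∀ x : Fin d → A, ∑ σ : Equiv.Perm (Fin d), c σ • (List.ofFn fun i => x (σ i)).prod = 0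

/-- The constant `(q + 2) d² d^(d^((q+1)d))`. -/
def classConst (q d : ℕ) : ℕ := (q + 2) * d ^ 2 * d ^ d ^ ((q + 1) * d)

private theorem cm_of {G : Type u} [Group G] {m : ℕ} {g : Fin m → G} {H : Type v} [Group H]
    (f : G →* H) {w : ℕ} {y : H} (h : Pool.Agent.H8.PI.Cm (fun i => f (g i)) w y) :
    ∃ x : G, CommutatorOfWeight g w x ∧ f x = y := by
  induction h with
  | gen i => exact ⟨g i, CommutatorOfWeight.gen i, rfl⟩
  | comm _ _ ha hb =>
    obtain ⟨a, ha, rfl⟩ := ha
    obtain ⟨b, hb, rfl⟩ := hb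
    refine ⟨a * b * a⁻¹ * b⁻¹, ha.comm hb, ?_⟩
    rw [map_mul, map_mul, map_mul, map_inv, map_inv]

/-- **Groups of exponent `p` in PI algebras.**  Let `G` be a `p`-group with `m` generators in the
group of units of an associative algebra over `𝔽_p` with a multilinear identity of degree `d`, in
which the commutators of weight less than `d` in the generators have orders dividing `q = p ^ e`
(for instance: `G` is a group of exponent `q`).  Then `G` is nilpotent of class at most
`classConst q d * m`. -/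
theorem result : ∀ (p : ℕ) [Fact p.Prime] (e d m : ℕ) (A : Type u) [Ring A] [Algebra (ZMod p) A]
    (c : Equiv.Perm (Fin d) → ZMod p), SatisfiesIdentity p A d c →
    ∀ (G : Type v) [Group G] (φ : G →* Aˣ), Function.Injective φ →
    ∀ g : Fin m → G, Subgroup.closure (Set.range g) = ⊤ →
    (∀ x : G, ∃ k : ℕ, x ^ p ^ k = 1) →
    (∀ (w : ℕ) (x : G), w < d → CommutatorOfWeight g w x → x ^ p ^ e = 1) →
    Group.IsNilpotent G ∧ Group.nilpotencyClass G ≤ classConst (p ^ e) d * m := by
  intro p hp e d m A _ _ c hc G _ φ hφ g hg hG hcm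
  -- normalize the identity
  obtain ⟨c', hc', hid⟩ : ∃ c' : Equiv.Perm (Fin d) → ZMod p, c' 1 = 1 ∧
      Pool.Agent.H8.PI.Ident A d c' := by
    obtain ⟨τ, hτ⟩ := Function.ne_iff.1 hc.1
    rw [Pi.zero_apply] at hτ
    refine ⟨fun σ => (c τ)⁻¹ * c (τ * σ), ?_, ?_⟩
    · show (c τ)⁻¹ * c (τ * 1) = 1
      rw [mul_one, inv_mul_cancel₀ hτ]
    · intro a
      have h1 := hc.2 fun i => a (τ⁻¹ i)
      have h2 : ∑ σ : Equiv.Perm (Fin d), c (τ * σ) • (List.ofFn fun i => a (σ i)).prod = 0 := by
        rw [← h1]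
        refine Fintype.sum_equiv (Equiv.mulLeft τ) _ _ fun σ => ?_
        have h3 : ∀ i, a (τ⁻¹ ((Equiv.mulLeft τ σ) i)) = a (σ i) := by
          intro i
          rw [Equiv.coe_mulLeft, Equiv.Perm.mul_apply, ← Equiv.Perm.mul_apply τ⁻¹ τ, inv_mul_cancel, Equiv.Perm.one_apply]
        simp only [h3]
        rfl
      simp only [mul_smul]
      rw [← Finset.smul_sum, h2, smul_zero]
  have hrange : Subgroup.closure (Set.range fun i => φ (g i)) = (⊤ : Subgroup G).map φ := by
    rw [← hg, MonoidHom.map_closure, ← Set.range_comp]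
    rfl
  have h1 : (Subgroup.closure (Set.range fun i => φ (g i))).lowerCentralSeries
      (classConst (p ^ e) d * m) = ⊥ := by
    have h2 := Pool.Agent.H8.PI.main (p := p) (e := e) hc' hid (g := fun i => φ (g i)) (by
      intro a ha
      rw [hrange] at ha
      obtain ⟨x, -, rfl⟩ := ha
      obtain ⟨k, hk⟩ := hG x
      exact ⟨k, by rw [← map_pow, hk, map_one]⟩) (by
      intro w a hw ha
      obtain ⟨x, hx, rfl⟩ := cm_of φ ha
      rw [← map_pow, hcm w x hw hx, map_one])
    rw [Fintype.card_fin] at h2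
    exact h2
  have h2 : (⊤ : Subgroup G).lowerCentralSeries (classConst (p ^ e) d * m) = ⊥ := by
    rw [hrange, ← Subgroup.map_lowerCentralSeries] at h1
    exact (Subgroup.map_eq_bot_iff_of_injective _ hφ).1 h1
  have hnil : Group.IsNilpotent G := Subgroup.nilpotent_iff_lowerCentralSeries.2 ⟨_, h2⟩
  exact ⟨hnil, Subgroup.lowerCentralSeries_eq_bot_iff_nilpotencyClass_le.1 h2⟩

end Pool.Agent.Results.MP_e1f7d3_al.PILinearClass
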